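import Pool.Agent.H975Z.LF.Main

open Pool.Agent.H975Z.LF

universe u v

/-- Classification of the pairs of linear forms with property (S) over an arbitrary ring.
Right ideals of `R` are the `Rᵐᵒᵖ`-submodules of `R`. Labels `t` that `τ` does not use give the
empty group, whose block sums are all `0`. -/
theorem Pool.Agent.Results.MP_0c4eaf_nt.AClassify.result
    {R : Type u} [Ring R] {h g : ℕ} (hh : 1 ≤ h) (hg : 1 ≤ g) (r : Fin h → R) (s : Fin g → R) :
    PropertyS.{u, v} r s ↔
      ∀ (τ : Fin g → ℕ) (ι : Fin g → Fin h),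
        ∃ J : Submodule Rᵐᵒᵖ R, J ≠ ⊤ ∧ Finite (R ⧸ J) ∧
          ∀ (t : ℕ) (x : R), (∀ i, blockSum s τ ι t i - x * r i ∈ J) → x ∈ J := by
  constructor
  · intro hS τ ι
    obtain ⟨W, iW, iM, fW, A, w0, hA, hw⟩ := miss_of_S r s hS
    exact crit_of_miss hh r s W A w0 hA hw τ ι
  · intro hc
    obtain ⟨W, iW, iM, fW, A, w0, hA, hw⟩ := exists_miss.{u, v} hg r s hc
    exact power hh r s W A w0 hA hw
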